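import Pool.Agent.K.MP_c1ff4a_lc.C2

set_option autoImplicit false

namespace Pool.Agent.Results.MP_c1ff4a_lc.Bounded

open Pool.Agent.P.MP_c1ff4a_lc

theorem result (σ : Type) [Finite σ] (M : OLIA σ) (T : ℕ → ℕ) (hT : M.Time T)
    (k : ℕ) (ws : Fin k → List σ) (hb : ∀ w ∈ M.lang, ∃ ns : Fin k → ℕ,
      w = (List.ofFn fun i => (List.replicate (ns i) (ws i)).flatten).flatten) :
    ∃ (N : OLCA σ) (p : Polynomial ℕ), N.lang = M.lang ∧ N.Time fun n => p.eval (T n) :=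
  bounded M T hT ws hb

end Pool.Agent.Results.MP_c1ff4a_lc.Bounded
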