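import Pool.Agent.K.MP_c1ff4a_lc.C3

set_option autoImplicit false

namespace Pool.Agent.Results.MP_c1ff4a_lc.DepthBarrier

open Pool.Agent.P.MP_c1ff4a_lc

/-- There is an OLIA of time `4 n` such that an OLCA of time `T` for its language turns every
circuit with `m` inputs and `s` gates into one of size `O(m t log t)` and depth `O(m log t)`,
where `t = T (2 (s + m + 2) ^ 2) + 2`. -/
theorem result : ∃ (σ : Type) (_ : Finite σ) (M : OLIA σ), (M.Time fun n => 4 * n) ∧
    ∀ (N : OLCA σ) (T : ℕ → ℕ), N.lang = M.lang → N.Time T → ∃ c : ℕ, ∀ (m : ℕ) (C : Circuit)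
      (t : ℕ), t = T (2 * (C.gates.length + m + 2) ^ 2) + 2 → ∃ C' : Circuit,
        C'.gates.length ≤ c * (m + 1) * t * Nat.log 2 t ∧
        C'.depth m ≤ c * (m + 1) * Nat.log 2 t ∧
        ∀ x : List Bool, x.length = m → C'.eval x = C.eval x :=
  depth_transfer

end Pool.Agent.Results.MP_c1ff4a_lc.DepthBarrier
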