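import Pool.Agent.K.MP_c1ff4a_lc.C2

set_option autoImplicit false

namespace Pool.Agent.Results.MP_c1ff4a_lc.Reversal

open Pool.Agent.P.MP_c1ff4a_lc

theorem result : (∀ (σ : Type) [Finite σ] (M : OLIA σ) (T : ℕ → ℕ), M.Time T →
      ∃ (N : OLCA σ) (p : Polynomial ℕ), N.lang = M.lang ∧ N.Time fun n => p.eval (T n)) ↔
    ∀ (σ : Type) [Finite σ] (N : OLCA σ) (T : ℕ → ℕ), N.Time T →
      ∃ (N' : OLCA σ) (p : Polynomial ℕ), N'.lang = {w | w.reverse ∈ N.lang} ∧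
        N'.Time fun n => p.eval (T n + n) :=
  reversal

end Pool.Agent.Results.MP_c1ff4a_lc.Reversal
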