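import Pool.Agent.K.MP_c1ff4a_lc.C4

set_option autoImplicit false

namespace Pool.Agent.Results.MP_c1ff4a_lc.SatBarrier

open Pool.Agent.P.MP_c1ff4a_lc

/-- If every OLIA of time `4 n` has an OLCA of time `O(n ^ c)`, then existential quantification
over `B` input bits costs circuits a factor `2 ^ ((c - 1 + ε) B)`, up to a polynomial. -/
theorem result (c ε : ℝ) (hc : 1 ≤ c) (hε : 0 < ε)
    (H : ∀ (σ : Type) [Finite σ] (M : OLIA σ), (M.Time fun n => 4 * n) →
      ∃ (N : OLCA σ) (K : ℝ), N.lang = M.lang ∧ N.Time fun n => ⌊K * (n : ℝ) ^ c⌋₊) :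
    ∃ D : ℕ, ∀ (m B : ℕ) (C : Circuit), ∃ C' : Circuit,
      (C'.gates.length : ℝ)
        ≤ ((C.gates.length + m + B + 2 : ℕ) : ℝ) ^ D * 2 ^ ((c - 1 + ε) * B) ∧
      ∀ x : List Bool, x.length = m →
        (C'.eval x = true ↔ ∃ α : List Bool, α.length = B ∧ C.eval (x ++ α) = true) :=
  sat_transfer H hc hε

end Pool.Agent.Results.MP_c1ff4a_lc.SatBarrier
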